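import Pool.Agent.H44.DV.Targets
import Pool.Agent.H70.DU.GE

/-!
GM (MP_81a758_an): minimality and subexponential scales, from the leaf coordinates to the surface.
-/

set_option autoImplicit false

namespace Pool.Agent.H44.DU

namespace H67GM

open H70GE

variable {n : ℕ} (S : Surf n)

/-- Density on the surface from density of the coordinates. -/
theorem dense (h2 : T_PT) (t : ℝ) (x : ℕ → Side n × ℂ) (y : ℕ → Side n × ℝ)
    (j : ℕ) (hxy : ∀ k, x (k + j) = S.th t (y k)) (h : S.Dns t y) :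
    S.DenseSeq ((t : ℂ) + Complex.I) x := by
  intro s hs z hz ε hε N
  have hxi : xi t (S.P s) < xi t (S.Q s) := by
    have h3 : 0 < (S.Q s - S.P s).re * 1 - (S.Q s - S.P s).im * t := by
      simpa [Surf.Enters] using hs
    simp only [Complex.sub_re, Complex.sub_im] at h3
    simp only [xi]
    linarith
  obtain ⟨-, -, -, -, -, h6⟩ := h2 n S t s hxi.ne
  obtain ⟨hz1, -, hz3⟩ := h6 z hz
  have hI := hz3 hxi
  have hJ : S.InJ t (S.gl s) (S.mv t s (xi t z)) := (S.inJ_gl_iff t s _).2 hI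
  have hth : S.th t (S.gl s, S.mv t s (xi t z)) = (s, z) := by
    simp only [Surf.th]
    rw [S.mv_gl, S.gl_gl, hz1]
  obtain ⟨K, hK, hnear⟩ := th_near S t (S.gl s, S.mv t s (xi t z))
  rw [hth] at hnear
  obtain ⟨k, hk, hk1, hk2⟩ := h (S.gl s) (S.mv t s (xi t z)) hJ (ε / K) (div_pos hε hK) N
  obtain ⟨a1, a2⟩ := hnear (y k) hk1
  refine ⟨k + j, by omega, ?_, ?_⟩
  · rw [hxy, a1]
  · rw [hxy]
    refine lt_of_le_of_lt a2 ?_
    simp only at hk2
    rw [lt_div_iff₀ hK] at hk2
    simp only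
    linarith

/-- The word of finitely many steps. -/
theorem steps_run (t : ℝ) (E : (Side n × ℂ) → (Side n × ℂ) → Side n × ℝ)
    (hE : ∀ (c : ℝ) (p q : Side n × ℂ),
      S.Step ((t : ℂ) + Complex.I) c p q →
      S.InJ t (E p q).1 (E p q).2 ∧ (E p q).1.1 = p.1.1 ∧ q = S.th t (E p q) ∧
        c = S.a (E p q).1 ∧ (E p q).2 = xi t p.2 ∧ xi t q.2 = S.mv t (E p q).1 (E p q).2)
    (m : ℕ) : ∀ (x : ℕ → Side n × ℂ) (c : ℕ → ℝ),
      (∀ k < m, S.Step ((t : ℂ) + Complex.I) (c k) (x k) (x (k + 1))) →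
      ∃ w : List (Side n), S.Run t w (xi t (x 0).2) ∧ w.length = m ∧
        S.A w = ∏ k ∈ Finset.range m, c k ∧ ∀ r ∈ w.head?, r.1 = (x 0).1.1 := by
  induction m with
  | zero =>
    intro x c _
    exact ⟨[], trivial, rfl, by simp [Surf.A], by simp⟩
  | succ m ih =>
    intro x c h
    obtain ⟨w, w1, w2, w3, w4⟩ := ih (fun k => x (k + 1)) (fun k => c (k + 1))
      (fun k hk => h (k + 1) (by omega))
    obtain ⟨a1, a2, a3, a4, a5, a6⟩ := hE _ _ _ (h 0 (by omega))
    refine ⟨(E (x 0) (x (0 + 1))).1 :: w, ⟨?_, ?_, ?_⟩, ?_, ?_, ?_⟩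
    · rw [← a5]; exact a1
    · intro r' hr'
      rw [w4 r' hr']
      have : (x (0 + 1)).1 = S.gl (E (x 0) (x (0 + 1))).1 := by
        conv_lhs => rw [a3]
        rfl
      rw [this]
    · rw [← a5, ← a6]
      exact w1
    · simp [w2]
    · rw [Finset.prod_range_succ', Surf.A, w3, a4, mul_comm]
    · intro r hr
      simp only [List.head?_cons, Option.mem_def, Option.some.injEq] at hr
      rw [← hr]
      exact a2

end H67GM

open H70GE H67GM in
/-- From the leaf coordinates to the surface. -/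
theorem pf_GM (h1 : T_ST) (h2 : T_PT) : D_GM := by
  intro n S t hG
  obtain ⟨E, hE⟩ := exists_exit S h1 t hG
  have htr : ∀ (c c' : ℝ) (p q q' : Side n × ℂ), S.Step ((t : ℂ) + Complex.I) c p q →
      S.Step ((t : ℂ) + Complex.I) c' q q' → S.Tr t (E p q) (E q q') := by
    intro c c' p q q' h h'
    obtain ⟨a1, a2, a3, a4, a5, a6⟩ := hE c p q h
    obtain ⟨b1, b2, b3, b4, b5, b6⟩ := hE c' q q' h'
    refine ⟨a1, b1, ?_, ?_⟩
    · rw [b2]
      conv_rhs => rw [a3]
      rfl
    · rw [b5, a6]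
  constructor
  · intro hP hT
    refine ⟨?_, ?_, ?_⟩
    · rw [Set.eq_empty_iff_forall_notMem]
      rintro p ⟨m, x, c, hc, rfl⟩
      have hst := cyc_periodic S _ m x c hc
      have hm : 0 < m := hc.1
      have y1 : ∀ k, S.Tr t (E (x (k % m)) (x ((k + 1) % m)))
          (E (x ((k + 1) % m)) (x ((k + 1 + 1) % m))) :=
        fun k => htr _ _ _ _ _ (hst k) (hst (k + 1))
      have y2 : ∀ k, E (x ((k + m) % m)) (x ((k + m + 1) % m)) =
          E (x (k % m)) (x ((k + 1) % m)) := by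
        intro k
        rw [Nat.add_mod_right, show k + m + 1 = k + 1 + m by ring, Nat.add_mod_right]
      have := S.chain_tper (y := fun k => E (x (k % m)) (x ((k + 1) % m))) y1 hm y2 0
      rw [hP] at this
      exact this
    · intro x hx
      choose c hc using hx
      refine dense S h2 t x (fun k => E (x k) (x (k + 1))) 1 (fun k => ?_) ?_
      · exact (hE _ _ _ (hc k)).2.2.1
      · exact hT.fwd _ fun k => htr _ _ _ _ _ (hc k) (hc (k + 1))
    · intro x hx
      choose c hc using hx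
      refine dense S h2 t x (fun k => E (x (k + 1)) (x k)) 0 (fun k => ?_) ?_
      · exact (hE _ _ _ (hc k)).2.2.1
      · exact hT.bwd _ fun k => htr _ _ _ _ _ (hc (k + 1)) (hc k)
  · intro hL hU ε hε
    obtain ⟨C1, hC1, h3⟩ := hL ε hε
    obtain ⟨C2, hC2, h4⟩ := hU ε hε
    refine ⟨max C1 C2, lt_max_of_lt_left hC1, fun m x c h => ?_⟩
    obtain ⟨w, w1, w2, w3, -⟩ := steps_run S t E hE m x c h
    have h5 := h3 w _ w1
    have h6 := h4 w _ w1
    rw [w2, w3] at h5 h6
    constructor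
    · refine le_trans ?_ h5
      exact mul_le_mul_of_nonneg_right (inv_anti₀ hC1 (le_max_left _ _)) (Real.exp_pos _).le
    · refine h6.trans ?_
      exact mul_le_mul_of_nonneg_right (le_max_right _ _) (Real.exp_pos _).le

end Pool.Agent.H44.DU
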